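import Pool.Agent.W2helper59.CW.Stm

/-!
# Project CW, piece MOM: double counting
-/

set_option autoImplicit false

namespace Pool.Agent.W2helper54.CW

open Pool.Agent.W2helper59.CW

open Classical in
/-- The positions of the occurrences. -/
noncomputable def E {m : ℕ} (p : Equiv.Perm (Fin (m + 1))) (n : ℕ) (σ : Equiv.Perm (Fin n)) :
    Finset ℕ :=
  (Finset.range n).filter (fun i => Occ p (σ : Fin n → Fin n) i)

lemma sum_cnt {m : ℕ} (p : Equiv.Perm (Fin (m + 1))) (n k : ℕ) :
    ∑ S ∈ (Finset.range n).powersetCard k, cnt p n S =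
      ∑ σ : Equiv.Perm (Fin n), (E p n σ).card.choose k := by
  classical
  unfold cnt
  simp_rw [Finset.card_filter]
  rw [Finset.sum_comm]
  refine Finset.sum_congr rfl fun σ _ => ?_
  rw [← Finset.card_filter, ← Finset.card_powersetCard]
  congr 1
  ext S
  simp only [Finset.mem_filter, Finset.mem_powersetCard, E, Finset.subset_iff]
  constructor
  · rintro ⟨⟨h1, h2⟩, h3⟩
    exact ⟨fun x hx => ⟨h1 hx, h3 x hx⟩, h2⟩
  · rintro ⟨h1, h2⟩
    exact ⟨⟨fun x hx => (h1 hx).1, h2⟩, fun x hx => (h1 hx).2⟩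

lemma sum_choose {m : ℕ} (p : Equiv.Perm (Fin (m + 1))) (n k : ℕ) :
    ∑ σ : Equiv.Perm (Fin n), (E p n σ).card.choose k =
      ∑ j ∈ Finset.range (n + 1),
        (Finset.univ.filter (fun σ : Equiv.Perm (Fin n) => (E p n σ).card = j)).card *
          j.choose k := by
  classical
  rw [← Finset.sum_fiberwise_of_maps_to (s := Finset.univ) (t := Finset.range (n + 1))
    (g := fun σ : Equiv.Perm (Fin n) => (E p n σ).card)]
  · refine Finset.sum_congr rfl fun j _ => ?_
    rw [Finset.card_eq_sum_ones, Finset.sum_mul]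
    refine Finset.sum_congr rfl fun σ hσ => ?_
    rw [(Finset.mem_filter.1 hσ).2, one_mul]
  · intro σ _
    have h1 : (E p n σ).card ≤ (Finset.range n).card := Finset.card_filter_le _ _
    rw [Finset.card_range] at h1
    exact Finset.mem_range.2 (by omega)

theorem p_mom : P_MOM := by
  intro m π τ h n k
  rw [sum_cnt, sum_cnt, sum_choose, sum_choose]
  have key : ∀ (p : Equiv.Perm (Fin (m + 1))) (j : ℕ),
      (Finset.univ.filter (fun σ : Equiv.Perm (Fin n) => (E p n σ).card = j)).card =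
      (Finset.univ.filter (fun σ : Equiv.Perm (Fin n) =>
          ((Finset.range n).filter (fun i : ℕ => i + (m + 1) ≤ n ∧
            ∀ a b : Fin (m + 1), ∀ (ha : i + (a : ℕ) < n) (hb : i + (b : ℕ) < n),
              (σ ⟨i + (a : ℕ), ha⟩ < σ ⟨i + (b : ℕ), hb⟩ ↔ p a < p b))).card = j)).card := by
    intro p j
    congr 1
    ext σ
    have h1 : E p n σ = (Finset.range n).filter (fun i : ℕ => i + (m + 1) ≤ n ∧
            ∀ a b : Fin (m + 1), ∀ (ha : i + (a : ℕ) < n) (hb : i + (b : ℕ) < n),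
              (σ ⟨i + (a : ℕ), ha⟩ < σ ⟨i + (b : ℕ), hb⟩ ↔ p a < p b)) := by
      ext i
      rw [Finset.mem_filter]
      exact (@Finset.mem_filter _ _ (Classical.decPred _) _ _).trans Iff.rfl
    rw [Finset.mem_filter, Finset.mem_filter, h1]
  refine Finset.sum_congr rfl fun j _ => ?_
  rw [key π j, key τ j, h n j]

end Pool.Agent.W2helper54.CW
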